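import Mathlib
import Pool.Agent.H15.HI3

set_option autoImplicit false

namespace Pool.Agent.Results.MP_27276c_an.Integral

open MeasureTheory

/-- For `p = q = 4/3` the integral inequality holds with a constant below `K(4/3,4/3) = √π`. -/
theorem result : ∃ C : ℝ, 0 ≤ C ∧ C < √Real.pi ∧ ∀ f g : ℝ → ℝ, Measurable f → Measurable g →
    (∀ x, 0 ≤ f x) → (∀ y, 0 ≤ g y) →
    ∫⁻ x in Set.Ioi (0:ℝ), ∫⁻ y in Set.Ioi (0:ℝ),
      ENNReal.ofReal (f x * g y * (x + y) ^ (-(1 / 2) : ℝ)) ≤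
      ENNReal.ofReal C *
        (∫⁻ x in Set.Ioi (0:ℝ), ENNReal.ofReal (f x ^ (4 / 3 : ℝ))) ^ (3 / 4 : ℝ) *
        (∫⁻ y in Set.Ioi (0:ℝ), ENNReal.ofReal (g y ^ (4 / 3 : ℝ))) ^ (3 / 4 : ℝ) :=
  ⟨_, by positivity, Pool.Agent.H15.HI.const_lt, Pool.Agent.H15.HI.intI⟩

end Pool.Agent.Results.MP_27276c_an.Integral
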