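import Mathlib
import Pool.Agent.H15.HI3

set_option autoImplicit false

namespace Pool.Agent.Results.MP_27276c_an.Series

/-- For `p = q = 4/3` the series inequality holds with a constant below `K(4/3,4/3) = √π`. -/
theorem result : ∃ C : ℝ, 0 ≤ C ∧ C < √Real.pi ∧ ∀ a b : ℕ → ℝ, (∀ m, 0 ≤ a m) → (∀ n, 0 ≤ b n) →
    ∑' m : ℕ, ∑' n : ℕ, ENNReal.ofReal (a (m + 1) * b (n + 1) *
      (((m + 1 : ℕ) : ℝ) + ((n + 1 : ℕ) : ℝ)) ^ (-(1 / 2) : ℝ)) ≤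
      ENNReal.ofReal C *
        (∑' m : ℕ, ENNReal.ofReal (a (m + 1) ^ (4 / 3 : ℝ))) ^ (3 / 4 : ℝ) *
        (∑' n : ℕ, ENNReal.ofReal (b (n + 1) ^ (4 / 3 : ℝ))) ^ (3 / 4 : ℝ) :=
  ⟨_, by positivity, Pool.Agent.H15.HI.const_lt, Pool.Agent.H15.HI.serS⟩

end Pool.Agent.Results.MP_27276c_an.Series
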